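import Pool.Agent.FWS.St3A

/-!
Squad FWS, row SIM: the top weight of the right exterior power is simple.
-/

set_option autoImplicit false

open Filter Topology

noncomputable section

namespace Pool.Agent.FWS.H40

variable {d N : ℕ}

/-- The projection onto the antisymmetric tensors. -/
def PP (d N : ℕ) : Matrix (Fin d → Fin N) (Fin d → Fin N) ℂ := cmpL d (1 : Mt N)

theorem PP_apply (p q : Fin d → Fin N) : PP d N p q =
    ((d.factorial : ℂ))⁻¹ * (Matrix.of fun i j : Fin d => (1 : Mt N) (p i) (q j)).det := rfl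

theorem PP_symm (p q : Fin d → Fin N) : PP d N p q = PP d N q p := by
  rw [PP_apply, PP_apply, ← Matrix.det_transpose]
  congr 2
  ext i j
  simp only [Matrix.transpose_apply, Matrix.of_apply, Matrix.one_apply, eq_comm]

theorem PP_star (p q : Fin d → Fin N) : star (PP d N p q) = PP d N p q := by
  have h1 : star ((Matrix.of fun i j : Fin d => (1 : Mt N) (p i) (q j)).det) =
      (Matrix.of fun i j : Fin d => (1 : Mt N) (p i) (q j)).det := by
    have h2 := (starRingEnd ℂ).map_det (Matrix.of fun i j : Fin d => (1 : Mt N) (p i) (q j))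
    have h3 : (starRingEnd ℂ).mapMatrix (Matrix.of fun i j : Fin d => (1 : Mt N) (p i) (q j)) =
        Matrix.of fun i j : Fin d => (1 : Mt N) (p i) (q j) := by
      ext i j
      simp only [RingHom.mapMatrix_apply, Matrix.map_apply, Matrix.of_apply, Matrix.one_apply]
      split_ifs <;> simp
    rw [h3] at h2
    exact h2
  rw [PP_apply, star_mul', h1]
  congr 1
  simp

theorem PP_sq (hC : CAB) : PP d N * PP d N = PP d N := by
  have := hC d N 1 1
  rw [one_mul] at this
  exact this

theorem PP_ne {p q : Fin d → Fin N} (h : PP d N p q ≠ 0) : ∃ σ : Equiv.Perm (Fin d), q = p ∘ σ := by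
  by_contra hcon
  push Not at hcon
  apply h
  rw [PP_apply, Matrix.det_apply]
  have : ∑ σ : Equiv.Perm (Fin d), Equiv.Perm.sign σ •
      ∏ i, (Matrix.of fun i j : Fin d => (1 : Mt N) (p i) (q j)) (σ i) i = 0 := by
    apply Finset.sum_eq_zero
    intro σ _
    have h1 : ∃ i, p (σ i) ≠ q i := by
      by_contra h2
      push Not at h2
      apply hcon σ
      funext i
      exact (h2 i).symm
    obtain ⟨i, hi⟩ := h1
    rw [Finset.prod_eq_zero (Finset.mem_univ i), smul_zero]
    rw [Matrix.of_apply, Matrix.one_apply_ne hi]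
  rw [this, mul_zero]

theorem PP_not_inj {p : Fin d → Fin N} (h : ¬ Function.Injective p) (q : Fin d → Fin N) :
    PP d N p q = 0 := by
  rw [Function.not_injective_iff] at h
  obtain ⟨i, j, hij, hne⟩ := h
  have h1 : (Matrix.of fun i j : Fin d => (1 : Mt N) (p i) (q j)) i =
      (Matrix.of fun i j : Fin d => (1 : Mt N) (p i) (q j)) j := by
    funext k
    show (1 : Mt N) (p i) (q k) = (1 : Mt N) (p j) (q k)
    rw [hij]
  rw [PP_apply, Matrix.det_zero_of_row_eq hne h1, mul_zero]

theorem PP_perm (p q : Fin d → Fin N) (σ : Equiv.Perm (Fin d)) :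
    PP d N (p ∘ σ) q = ((Equiv.Perm.sign σ : ℤ) : ℂ) * PP d N p q := by
  rw [PP_apply, PP_apply]
  have := Matrix.det_permute σ (Matrix.of fun i j : Fin d => (1 : Mt N) (p i) (q j))
  have h2 : (Matrix.of fun i j : Fin d => (1 : Mt N) ((p ∘ σ) i) (q j)) =
      (Matrix.of fun i j : Fin d => (1 : Mt N) (p i) (q j)).submatrix σ id := by
    ext i j
    rfl
  rw [h2, this]
  ring

theorem PP_diag {p : Fin d → Fin N} (h : Function.Injective p) : PP d N p p ≠ 0 := by
  rw [PP_apply]
  have h2 : (Matrix.of fun i j : Fin d => (1 : Mt N) (p i) (p j)) = 1 := by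
    ext i j
    simp only [Matrix.of_apply, Matrix.one_apply, h.eq_iff]
  rw [h2, Matrix.det_one, mul_one]
  exact inv_ne_zero (by exact_mod_cast Nat.factorial_ne_zero d)

/-- The weight of a tuple. -/
def XX (x : Fin N → ℤ) (p : Fin d → Fin N) : ℤ := ∑ i, x (p i)

theorem XX_perm (x : Fin N → ℤ) (p : Fin d → Fin N) (σ : Equiv.Perm (Fin d)) :
    XX x (p ∘ σ) = XX x p := by
  unfold XX
  exact Equiv.sum_comp σ (fun i => x (p i))

theorem XX_mul (x : Fin N → ℤ) (p q : Fin d → Fin N) :
    (XX x p : ℂ) * PP d N p q = (XX x q : ℂ) * PP d N p q := by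
  by_cases h : PP d N p q = 0
  · rw [h, mul_zero, mul_zero]
  · obtain ⟨σ, rfl⟩ := PP_ne h
    rw [XX_perm]

/-- The generator. -/
def AA (x : Fin N → ℤ) : Matrix (Fin d → Fin N) (Fin d → Fin N) ℂ :=
  Matrix.of fun p q => (XX x p : ℂ) * PP d N p q

theorem AA_mulVec (x : Fin N → ℤ) (v : (Fin d → Fin N) → ℂ) (p : Fin d → Fin N) :
    (AA x).mulVec v p = (XX x p : ℂ) * (PP d N).mulVec v p := by
  simp only [Matrix.mulVec, dotProduct, AA, Matrix.of_apply, Finset.mul_sum, mul_assoc]

theorem PP_AA (hC : CAB) (x : Fin N → ℤ) : PP d N * AA x = AA x := by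
  ext p q
  rw [Matrix.mul_apply]
  have h1 : ∀ r, PP d N p r * (AA x) r q = (XX x p : ℂ) * (PP d N p r * PP d N r q) := by
    intro r
    show PP d N p r * ((XX x r : ℂ) * PP d N r q) = _
    have := XX_mul x p r
    calc PP d N p r * ((XX x r : ℂ) * PP d N r q) = ((XX x r : ℂ) * PP d N p r) * PP d N r q := by ring
      _ = ((XX x p : ℂ) * PP d N p r) * PP d N r q := by rw [this]
      _ = _ := by ring
  simp_rw [h1]
  rw [← Finset.mul_sum, ← Matrix.mul_apply, PP_sq hC]
  rfl

/-- A nonzero eigenvalue. -/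
theorem PP_fix (hC : CAB) {x : Fin N → ℤ} {v : (Fin d → Fin N) → ℂ} {l : ℂ} (hl : l ≠ 0)
    (h : (AA x).mulVec v = l • v) : (PP d N).mulVec v = v := by
  have h1 : (PP d N).mulVec ((AA x).mulVec v) = (AA x).mulVec v := by
    rw [Matrix.mulVec_mulVec, PP_AA hC]
  rw [h, Matrix.mulVec_smul] at h1
  exact smul_right_injective _ hl h1

theorem XX_eig (hC : CAB) {x : Fin N → ℤ} {v : (Fin d → Fin N) → ℂ} {l : ℂ} (hl : l ≠ 0)
    (h : (AA x).mulVec v = l • v) {p : Fin d → Fin N} (hp : v p ≠ 0) : (XX x p : ℂ) = l := by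
  have h1 := congrFun h p
  rw [AA_mulVec, PP_fix hC hl h, Pi.smul_apply, smul_eq_mul] at h1
  exact mul_right_cancel₀ hp h1

theorem cmpL_dgW (x : Fin N → ℤ) (t : ℝ) (p q : Fin d → Fin N) :
    cmpL d (dgW x t) p q =
      Complex.exp (((t * (XX x p : ℝ) : ℝ) : ℂ) * Complex.I) * PP d N p q := by
  have h1 : (Matrix.of fun i j : Fin d => (dgW x t) (p i) (q j)) =
      Matrix.of fun i j : Fin d => Complex.exp (((t * (x (p i) : ℝ) : ℝ) : ℂ) * Complex.I) *
        (Matrix.of fun i j : Fin d => (1 : Mt N) (p i) (q j)) i j := by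
    ext i j
    simp only [Matrix.of_apply, dgW, Matrix.diagonal_apply, Matrix.one_apply]
    split_ifs <;> simp
  have h2 : cmpL d (dgW x t) p q =
      ((d.factorial : ℂ))⁻¹ * (Matrix.of fun i j : Fin d => (dgW x t) (p i) (q j)).det := rfl
  rw [h2, h1, Matrix.det_mul_column, ← Complex.exp_sum, PP_apply]
  have h3 : ∑ i, ((t * (x (p i) : ℝ) : ℝ) : ℂ) * Complex.I =
      ((t * (XX x p : ℝ) : ℝ) : ℂ) * Complex.I := by
    rw [← Finset.sum_mul]
    congr 1
    unfold XX
    push_cast
    rw [Finset.mul_sum]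
  rw [h3]
  ring

theorem cmpM_dgW (x : Fin N → ℤ) (t : ℝ) (p q : Fin d → Fin N) :
    cmpM d (dgW x t) p q =
      Complex.exp (((t * (XX x p : ℝ) : ℝ) : ℂ) * Complex.I) * PP d N p q +
        (1 : Matrix (Fin d → Fin N) (Fin d → Fin N) ℂ) p q - PP d N p q := by
  have h1 : cmpM d (dgW x t) p q = cmpL d (dgW x t) p q +
    (1 : Matrix (Fin d → Fin N) (Fin d → Fin N) ℂ) p q - PP d N p q := rfl
  rw [h1, cmpL_dgW]

theorem cmpM_mulVec (x : Fin N → ℤ) (t : ℝ) (v : (Fin d → Fin N) → ℂ) (p : Fin d → Fin N) :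
    (cmpM d (dgW x t)).mulVec v p =
      Complex.exp (((t * (XX x p : ℝ) : ℝ) : ℂ) * Complex.I) * (PP d N).mulVec v p +
        v p - (PP d N).mulVec v p := by
  have h1 : (cmpM d (dgW x t)).mulVec v p = ∑ q, cmpM d (dgW x t) p q * v q := rfl
  have h2 : (PP d N).mulVec v p = ∑ q, PP d N p q * v q := rfl
  have h3 : v p = ∑ q, (1 : Matrix (Fin d → Fin N) (Fin d → Fin N) ℂ) p q * v q := by
    have := congrFun (Matrix.one_mulVec v) p
    exact this.symm
  rw [h1, h2]
  conv_rhs => rw [h3]
  rw [Finset.mul_sum, ← Finset.sum_add_distrib, ← Finset.sum_sub_distrib]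
  apply Finset.sum_congr rfl
  intro q _
  rw [cmpM_dgW]
  ring

theorem sim (hC : CAB) : SIM := by
  intro N x hx hs
  -- the maximum
  have hne : Nonempty (Fin N) := by
    by_contra hcon
    apply hx
    funext k
    exact absurd ⟨k⟩ hcon
  obtain ⟨k0, hk0⟩ := Finite.exists_max x
  set m0 : ℤ := x k0 with hm0
  have hm0pos : 0 < m0 := by
    by_contra hcon
    push Not at hcon
    apply hx
    funext k
    have h1 : ∀ k ∈ Finset.univ, x k ≤ 0 := fun k _ => (hk0 k).trans hcon
    have h2 := (Finset.sum_eq_zero_iff_of_nonpos h1).mp hs k (Finset.mem_univ k)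
    exact h2
  set S : Finset (Fin N) := Finset.univ.filter (fun k => x k = m0) with hS
  set d : ℕ := S.card with hd
  have hdpos : 0 < d := Finset.card_pos.mpr ⟨k0, by simp [hS, hm0]⟩
  set p0 : Fin d → Fin N := fun i => (S.equivFin.symm i).1 with hp0
  have hp0inj : Function.Injective p0 := by
    intro i j hij
    exact S.equivFin.symm.injective (Subtype.ext hij)
  have hp0mem : ∀ i, x (p0 i) = m0 := by
    intro i
    have := (S.equivFin.symm i).2
    exact (Finset.mem_filter.mp this).2
  have hp0surj : ∀ k, x k = m0 → ∃ i, p0 i = k := by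
    intro k hk
    have hkS : k ∈ S := by rw [hS, Finset.mem_filter]; exact ⟨Finset.mem_univ k, hk⟩
    refine ⟨S.equivFin ⟨k, hkS⟩, ?_⟩
    simp [hp0]
  have hXp0 : XX x p0 = d * m0 := by
    unfold XX
    simp_rw [hp0mem]
    simp
  have hω0 : PP d N p0 p0 ≠ 0 := PP_diag hp0inj
  have hmpos : 0 < (d : ℤ) * m0 := mul_pos (by exact_mod_cast hdpos) hm0pos
  refine ⟨d, AA x, fun p => PP d N p p0, d * m0, hmpos, ?_⟩
  constructor
  · -- herm
    ext p q
    rw [Matrix.conjTranspose_apply]
    show star ((XX x q : ℂ) * PP d N q p) = (XX x p : ℂ) * PP d N p q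
    rw [star_mul', PP_star, PP_symm q p, XX_mul]
    congr 1
    simp
  · -- ne
    intro h
    exact hω0 (congrFun h p0)
  · -- eig
    funext p
    rw [AA_mulVec, Pi.smul_apply, smul_eq_mul]
    have h1 : (PP d N).mulVec (fun p => PP d N p p0) p = PP d N p p0 := by
      have h2 : (PP d N).mulVec (fun p => PP d N p p0) p = (PP d N * PP d N) p p0 := rfl
      rw [h2, PP_sq hC]
    rw [h1, XX_mul, hXp0]
  · -- int
    intro v l hv h
    by_cases hl : l = 0
    · exact ⟨0, by rw [hl]; simp⟩
    · have hl' : (l : ℂ) ≠ 0 := by exact_mod_cast hl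
      obtain ⟨p, hp⟩ := Function.ne_iff.mp hv
      have h1 := XX_eig hC hl' h hp
      exact ⟨XX x p, by exact_mod_cast h1⟩
  · -- top
    intro v z h hz
    have hzne : (z : ℂ) ≠ 0 := by
      have : z ≠ 0 := by linarith
      exact_mod_cast this
    have hfix := PP_fix hC hzne h
    have hfixp : ∀ p, v p = ∑ q, PP d N p q * v q := by
      intro p
      exact (congrFun hfix p).symm
    refine ⟨v p0 / PP d N p0 p0, ?_⟩
    funext p
    rw [Pi.smul_apply, smul_eq_mul]
    by_cases hσ : ∃ σ : Equiv.Perm (Fin d), p = p0 ∘ σ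
    · obtain ⟨σ, rfl⟩ := hσ
      have h1 : v (p0 ∘ σ) = ((Equiv.Perm.sign σ : ℤ) : ℂ) * v p0 := by
        rw [hfixp (p0 ∘ σ), hfixp p0, Finset.mul_sum]
        apply Finset.sum_congr rfl
        intro q _
        rw [PP_perm]
        ring
      rw [h1]
      show _ = v p0 / PP d N p0 p0 * PP d N (p0 ∘ σ) p0
      rw [PP_perm]
      field_simp
    · have h1 : PP d N p p0 = 0 := by
        by_contra hcon
        obtain ⟨σ, hσ2⟩ := PP_ne hcon
        apply hσ
        refine ⟨σ⁻¹, ?_⟩
        rw [hσ2]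
        funext i
        simp
      show v p = v p0 / PP d N p0 p0 * PP d N p p0
      rw [h1, mul_zero]
      by_contra hvp
      apply hσ
      have h2 := XX_eig hC hzne h hvp
      have h3 : XX x p = z := by exact_mod_cast h2
      have hinj : Function.Injective p := by
        by_contra hcon
        apply hvp
        rw [hfixp p]
        apply Finset.sum_eq_zero
        intro q _
        rw [PP_not_inj hcon, zero_mul]
      have h4 : ∀ i, x (p i) = m0 := by
        intro i
        by_contra hcon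
        have h5 : x (p i) < m0 := lt_of_le_of_ne (hk0 _) hcon
        have h6 : XX x p < ∑ _i : Fin d, m0 := by
          unfold XX
          exact Finset.sum_lt_sum (fun i _ => hk0 _) ⟨i, Finset.mem_univ i, h5⟩
        simp only [Finset.sum_const, Finset.card_univ, Fintype.card_fin, nsmul_eq_mul] at h6
        linarith
      choose f hf using fun i => hp0surj (p i) (h4 i)
      have hfinj : Function.Injective f := by
        intro i j hij
        apply hinj
        rw [← hf i, ← hf j, hij]
      refine ⟨Equiv.ofBijective f (Finite.injective_iff_bijective.mp hfinj), ?_⟩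
      funext i
      exact (hf i).symm
  · -- one
    ext p q
    rw [cmpM_dgW]
    simp
  · -- der
    intro p q
    have h1 : (fun t : ℝ => cmpM d (dgW x t) p q) = fun t : ℝ =>
        Complex.exp (((t * (XX x p : ℝ) : ℝ) : ℂ) * Complex.I) * PP d N p q +
        (1 : Matrix (Fin d → Fin N) (Fin d → Fin N) ℂ) p q - PP d N p q := by
      funext t
      exact cmpM_dgW x t p q
    rw [h1]
    have h2 : HasDerivAt (fun t : ℝ => (((t * (XX x p : ℝ) : ℝ) : ℂ) * Complex.I))
        ((XX x p : ℂ) * Complex.I) 0 := by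
      have h3 : HasDerivAt (fun t : ℝ => t * (XX x p : ℝ)) (XX x p : ℝ) 0 := by
        simpa using (hasDerivAt_id (0 : ℝ)).mul_const (XX x p : ℝ)
      have h4 := h3.ofReal_comp.mul_const Complex.I
      simpa using h4
    have h5 := ((h2.cexp.mul_const (PP d N p q)).add_const
      ((1 : Matrix (Fin d → Fin N) (Fin d → Fin N) ℂ) p q)).sub_const (PP d N p q)
    have h6 : Complex.I * AA x p q = Complex.exp ((((0 : ℝ) * (XX x p : ℝ) : ℝ) : ℂ) * Complex.I) *
        ((XX x p : ℂ) * Complex.I) * PP d N p q := by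
      show Complex.I * ((XX x p : ℂ) * PP d N p q) = _
      simp
      ring
    rw [h6]
    exact h5
  · -- act
    intro v z h t
    funext p
    rw [cmpM_mulVec, Pi.smul_apply, smul_eq_mul]
    by_cases hz : z = 0
    · subst hz
      have h1 := congrFun h p
      rw [AA_mulVec] at h1
      simp only [Int.cast_zero, zero_smul, Pi.zero_apply, mul_eq_zero] at h1
      rcases h1 with h1 | h1
      · have h2 : XX x p = 0 := by exact_mod_cast h1
        rw [h2]
        simp
      · rw [h1]
        simp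
    · have hzne : (z : ℂ) ≠ 0 := by exact_mod_cast hz
      rw [PP_fix hC hzne h]
      by_cases hv : v p = 0
      · rw [hv]; simp
      · have h2 := XX_eig hC hzne h hv
        have h3 : XX x p = z := by exact_mod_cast h2
        rw [h3]
        ring

end Pool.Agent.FWS.H40
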